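import Pool.Agent.Y110.FJ.Stm6
import Pool.Agent.Y110.FJ.Tgr
import Pool.Agent.Y86.FJ.Sig

/-!
# Amalgamated products over a retract of one factor
-/

set_option autoImplicit false

namespace Pool.Agent.Y620.FJ

open Pool.Agent.Y110.FJ Pool.Agent.Y261.FJ

section

variable {G : Type} [Group G] {A B K : Subgroup G}

/-- the kernel of the retraction -/
abbrev RR (ρ : B →* K) : Subgroup G := ρ.ker.map B.subtype

lemma mem_RR (ρ : B →* K) (x : G) : x ∈ RR ρ ↔ ∃ hx : x ∈ B, ρ ⟨x, hx⟩ = 1 := by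
  constructor
  · rintro ⟨b, hb, rfl⟩
    exact ⟨b.2, hb⟩
  · rintro ⟨hx, h⟩
    exact ⟨⟨x, hx⟩, h, rfl⟩

variable (h : Amg A B K) (ρ : B →* K)
  (hρ : ∀ (c : G) (hc : c ∈ K), ρ ⟨c, h.le_right hc⟩ = ⟨c, hc⟩)

include h hρ

lemma conj_RR {k : G} (hk : k ∈ K) {x : G} (hx : x ∈ RR ρ) : k * x * k⁻¹ ∈ RR ρ := by
  rw [mem_RR] at hx ⊢
  obtain ⟨hxB, hx1⟩ := hx
  refine ⟨B.mul_mem (B.mul_mem (h.le_right hk) hxB) (B.inv_mem (h.le_right hk)), ?_⟩
  have h1 : (⟨k * x * k⁻¹, B.mul_mem (B.mul_mem (h.le_right hk) hxB)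
      (B.inv_mem (h.le_right hk))⟩ : B) =
      ⟨k, h.le_right hk⟩ * ⟨x, hxB⟩ * ⟨k, h.le_right hk⟩⁻¹ := rfl
  rw [h1, map_mul, map_mul, map_inv, hx1, mul_one, mul_inv_cancel]

lemma conj_RR_iff {k : G} (hk : k ∈ K) {x : G} : k⁻¹ * x * k ∈ RR ρ ↔ x ∈ RR ρ := by
  constructor
  · intro h1
    have h2 := conj_RR h ρ hρ hk h1
    have e : k * (k⁻¹ * x * k) * k⁻¹ = x := by group
    rwa [e] at h2
  · intro h1
    have h2 := conj_RR h ρ hρ (K.inv_mem hk) h1
    rwa [inv_inv] at h2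

omit h hρ

/-- the vertices -/
abbrev VV (A K : Subgroup G) : Type := A ⧸ K.subgroupOf A

/-- the vertex groups -/
noncomputable def AV (ρ : B →* K) (v : VV A K) : Subgroup G :=
  (RR ρ).map (MulAut.conj ((v.out : A) : G)).toMonoidHom

include h hρ

lemma mem_AV (c : A) (x : G) :
    x ∈ AV ρ (QuotientGroup.mk c : VV A K) ↔ (c : G)⁻¹ * x * c ∈ RR ρ := by
  set v : VV A K := QuotientGroup.mk c with hv
  have h1 : (QuotientGroup.mk v.out : VV A K) = QuotientGroup.mk c := by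
    rw [QuotientGroup.out_eq', hv]
  obtain ⟨k, hk⟩ : ∃ k : G, (c⁻¹ * v.out : A) = k ∧ k ∈ K := by
    have h2 := QuotientGroup.eq.1 h1.symm
    exact ⟨_, rfl, h2⟩
  have h3 : ((v.out : A) : G) = c * k := by
    rw [← hk.1]
    push_cast
    group
  have h4 : x ∈ AV ρ v ↔ ((v.out : A) : G)⁻¹ * x * (v.out : A) ∈ RR ρ := by
    unfold AV
    constructor
    · rintro ⟨y, hy, rfl⟩
      have e : ((v.out : A) : G)⁻¹ * ((MulAut.conj ((v.out : A) : G)).toMonoidHom y) *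
          (v.out : A) = y := by
        simp only [MulEquiv.toMonoidHom_eq_coe, MonoidHom.coe_coe, MulAut.conj_apply]
        group
      rw [e]
      exact hy
    · intro h5
      refine ⟨_, h5, ?_⟩
      simp only [MulEquiv.toMonoidHom_eq_coe, MonoidHom.coe_coe, MulAut.conj_apply]
      group
  rw [h4, h3]
  have e : ((c : G) * k)⁻¹ * x * (c * k) = k⁻¹ * ((c : G)⁻¹ * x * c) * k := by group
  rw [e]
  exact conj_RR_iff h ρ hρ hk.2

lemma AV_eq (c : A) : AV ρ (QuotientGroup.mk c : VV A K) =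
    (RR ρ).map (MulAut.conj (c : G)).toMonoidHom := by
  ext x
  rw [mem_AV h ρ hρ]
  constructor
  · intro h5
    refine ⟨_, h5, ?_⟩
    simp only [MulEquiv.toMonoidHom_eq_coe, MonoidHom.coe_coe, MulAut.conj_apply]
    group
  · rintro ⟨y, hy, rfl⟩
    have e : (c : G)⁻¹ * ((MulAut.conj (c : G)).toMonoidHom y) * c = y := by
      simp only [MulEquiv.toMonoidHom_eq_coe, MonoidHom.coe_coe, MulAut.conj_apply]
      group
    rw [e]
    exact hy

lemma AV_one : AV ρ (QuotientGroup.mk (1 : A) : VV A K) = RR ρ := by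
  ext x
  rw [mem_AV h ρ hρ]
  simp

lemma AV_smul (q : A) (v : VV A K) :
    AV ρ (q • v) = (AV ρ v).map (MulAut.conj (q : G)).toMonoidHom := by
  obtain ⟨c, rfl⟩ := QuotientGroup.mk_surjective v
  have h1 : q • (QuotientGroup.mk c : VV A K) = QuotientGroup.mk (q * c) := rfl
  have h2 : (MulAut.conj ((q * c : A) : G)).toMonoidHom =
      (MulAut.conj (q : G)).toMonoidHom.comp (MulAut.conj (c : G)).toMonoidHom := by
    ext x
    simp [MulAut.conj_apply, mul_assoc]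
  rw [h1, AV_eq h ρ hρ, AV_eq h ρ hρ, h2]
  exact (Subgroup.map_map (RR ρ) _ _).symm

omit h hρ

lemma fix_iff (a : A) (c : A) : a • (QuotientGroup.mk c : VV A K) = QuotientGroup.mk c ↔
    (c : G)⁻¹ * a * c ∈ K := by
  have h1 : a • (QuotientGroup.mk c : VV A K) = QuotientGroup.mk (a * c) := rfl
  rw [h1, eq_comm, QuotientGroup.eq, Subgroup.mem_subgroupOf]
  push_cast
  rw [mul_assoc]

/-- the graph product -/
abbrev GG (ρ : B →* K) : Type :=
  GrP (⊥ : SimpleGraph (VV A K)) (fun v : VV A K => ↥(AV ρ v))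

/-- the inclusion of a vertex group -/
noncomputable abbrev off (ρ : B →* K) (v : VV A K) : ↥(AV ρ v) →* GG (A := A) ρ :=
  GrP.of (⊥ : SimpleGraph (VV A K)) (fun v : VV A K => ↥(AV ρ v)) v

/-- the natural map from the graph product -/
noncomputable def ff (A : Subgroup G) (ρ : B →* K) : GG (A := A) ρ →* G :=
  glift (Λ := (⊥ : SimpleGraph (VV A K))) (A := fun v : VV A K => ↥(AV ρ v))
    (fun v => (AV ρ v).subtype) (fun v w hvw => absurd hvw (by simp))

lemma ff_of (v : VV A K) (a : AV ρ v) : ff A ρ (off ρ v a) = a := by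
  unfold ff
  exact glift_of (Λ := (⊥ : SimpleGraph (VV A K))) (A := fun v : VV A K => ↥(AV ρ v)) _ _ v a

include h hρ

lemma aut_ex (q : A) : ∃ σ : MulAut (GG (A := A) ρ), ∀ (t : VV A K) (b : AV ρ t)
    (b' : AV ρ (q • t)), (b' : G) = q * b * (q : G)⁻¹ → σ (off ρ t b) = off ρ (q • t) b' := by
  obtain ⟨σ, hσ⟩ := Pool.Agent.Y86.FJ.t_sig G (VV A K) ⊥ (AV ρ) (MulAction.toPerm q) (q : G)
    (fun s t => by simp) (fun t => AV_smul h ρ hρ q t)
  exact ⟨σ, fun t b b' hb => hσ t b b' hb⟩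

omit h hρ in
lemma hom_ext' {H : Type} [Monoid H] {φ ψ : GG (A := A) ρ →* H}
    (hh : ∀ v (a : AV ρ v), φ (off ρ v a) = ψ (off ρ v a)) : φ = ψ :=
  ghom_ext (Λ := (⊥ : SimpleGraph (VV A K))) (A := fun v : VV A K => ↥(AV ρ v)) hh

lemma mem_smul (q : A) {t : VV A K} (b : AV ρ t) : (q : G) * b * (q : G)⁻¹ ∈ AV ρ (q • t) := by
  rw [AV_smul h ρ hρ]
  exact ⟨b, b.2, rfl⟩

omit h hρ in
lemma off_eq {s t : VV A K} (hst : s = t) (b : AV ρ s) (b' : AV ρ t) (hb : (b : G) = b') :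
    off ρ s b = off ρ t b' := by
  subst hst
  rw [Subtype.ext hb]

lemma alpha_ex : ∃ α : A →* MulAut (GG (A := A) ρ), ∀ (q : A) (t : VV A K) (b : AV ρ t)
    (b' : AV ρ (q • t)), (b' : G) = q * b * (q : G)⁻¹ → α q (off ρ t b) = off ρ (q • t) b' := by
  choose σ hσ using aut_ex h ρ hρ
  refine ⟨MonoidHom.mk' σ fun q q' => ?_, hσ⟩
  apply MulEquiv.toMonoidHom_injective
  apply hom_ext' ρ
  intro v a
  show σ (q * q') (off ρ v a) = σ q (σ q' (off ρ v a))
  rw [hσ q' v a ⟨_, mem_smul h ρ hρ q' a⟩ rfl, hσ q (q' • v) _ ⟨_, mem_smul h ρ hρ q _⟩ rfl,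
    hσ (q * q') v a ⟨_, mem_smul h ρ hρ (q * q') a⟩ rfl]
  refine off_eq ρ (mul_smul q q' v) _ _ ?_
  simp only
  push_cast
  group

/-- everything about the graph product -/
lemma gp_ex : ∃ r : G →* A, (∀ a : A, r a = a) ∧ IsGP (⊥ : SimpleGraph (VV A K)) (AV ρ) r.ker := by
  obtain ⟨r, hrA, hrB⟩ := h.univ A (MonoidHom.id A) ((Subgroup.inclusion h.le_left).comp ρ)
    (fun c hc => by
      rw [MonoidHom.comp_apply, hρ c hc]
      rfl)
  refine ⟨r, hrA, ?_⟩
  obtain ⟨α, hα⟩ := alpha_ex h ρ hρ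
  have hf := ff_of (A := A) ρ
  -- the map back
  have hcompat : ∀ q : A, (ff A ρ).comp (α q).toMonoidHom =
      (MulAut.conj (A.subtype q)).toMonoidHom.comp (ff A ρ) := by
    intro q
    apply hom_ext' ρ
    intro v a
    show ff A ρ (α q (off ρ v a)) = MulAut.conj (q : G) (ff A ρ (off ρ v a))
    rw [hα q v a ⟨_, mem_smul h ρ hρ q a⟩ rfl, hf, hf, MulAut.conj_apply]
  set kk : GG (A := A) ρ ⋊[α] A →* G := SemidirectProduct.lift (ff A ρ) A.subtype hcompat with hkk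
  -- the map on `B`
  have hrB1 : ∀ b : B, (b : G) * ((ρ b : K) : G)⁻¹ ∈ RR ρ := by
    intro b
    rw [mem_RR]
    have hk : ((ρ b : K) : G) ∈ B := h.le_right (ρ b).2
    refine ⟨B.mul_mem b.2 (B.inv_mem hk), ?_⟩
    have e : (⟨(b : G) * ((ρ b : K) : G)⁻¹, B.mul_mem b.2 (B.inv_mem hk)⟩ : B) =
        b * (⟨((ρ b : K) : G), hk⟩ : B)⁻¹ := rfl
    rw [e, map_mul, map_inv]
    have e2 : ρ ⟨((ρ b : K) : G), hk⟩ = ρ b := hρ _ (ρ b).2
    rw [e2, mul_inv_cancel]
  set v0 : VV A K := QuotientGroup.mk (1 : A) with hv0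
  have hAV0 : AV ρ v0 = RR ρ := AV_one h ρ hρ
  have hB0 : ∀ b : B, (b : G) * ((ρ b : K) : G)⁻¹ ∈ AV ρ v0 := fun b => by
    rw [hAV0]
    exact hrB1 b
  have hfix : ∀ k : K, (⟨k, h.le_left k.2⟩ : A) • v0 = v0 := by
    intro k
    rw [hv0, fix_iff]
    simp
  set β : B →* GG (A := A) ρ ⋊[α] A := MonoidHom.mk'
    (fun b => SemidirectProduct.inl (off ρ v0 ⟨_, hB0 b⟩) *
      SemidirectProduct.inr (⟨ρ b, h.le_left (ρ b).2⟩ : A)) (by
    intro b b'
    have e1 : (SemidirectProduct.inr (⟨ρ b, h.le_left (ρ b).2⟩ : A) : GG (A := A) ρ ⋊[α] A) *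
        SemidirectProduct.inl (off ρ v0 ⟨_, hB0 b'⟩) =
        SemidirectProduct.inl (α (⟨ρ b, h.le_left (ρ b).2⟩ : A) (off ρ v0 ⟨_, hB0 b'⟩)) *
          SemidirectProduct.inr (⟨ρ b, h.le_left (ρ b).2⟩ : A) := by
      rw [SemidirectProduct.inl_aut, map_inv, inv_mul_cancel_right]
    have e2 : (SemidirectProduct.inr (⟨ρ (b * b'), h.le_left (ρ (b * b')).2⟩ : A) :
        GG (A := A) ρ ⋊[α] A) = SemidirectProduct.inr (⟨ρ b, h.le_left (ρ b).2⟩ : A) *
          SemidirectProduct.inr (⟨ρ b', h.le_left (ρ b').2⟩ : A) := by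
      rw [← map_mul]
      congr 1
      ext
      simp
    have e3 : off ρ v0 ⟨_, hB0 (b * b')⟩ = off ρ v0 ⟨_, hB0 b⟩ *
        α (⟨ρ b, h.le_left (ρ b).2⟩ : A) (off ρ v0 ⟨_, hB0 b'⟩) := by
      rw [hα _ v0 _ ⟨_, mem_smul h ρ hρ _ _⟩ rfl]
      have hm : ((ρ b : K) : G) * ((b' : G) * ((ρ b' : K) : G)⁻¹) * ((ρ b : K) : G)⁻¹ ∈
          AV ρ v0 := by
        rw [hAV0]
        exact conj_RR h ρ hρ (ρ b).2 (hrB1 b')
      rw [off_eq ρ (hfix (ρ b)) _ ⟨_, hm⟩ rfl, ← map_mul]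
      congr 1
      ext
      simp only [map_mul]
      push_cast
      group
    rw [e2, e3, map_mul]
    have e4 : ∀ x y z w : GG (A := A) ρ ⋊[α] A, x * y * (z * w) = x * (y * z) * w := by
      intro x y z w
      group
    calc _ = SemidirectProduct.inl (off ρ v0 ⟨_, hB0 b⟩) *
          (SemidirectProduct.inl (α (⟨ρ b, h.le_left (ρ b).2⟩ : A) (off ρ v0 ⟨_, hB0 b'⟩)) *
          SemidirectProduct.inr (⟨ρ b, h.le_left (ρ b).2⟩ : A)) *
            SemidirectProduct.inr (⟨ρ b', h.le_left (ρ b').2⟩ : A) := by group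
      _ = _ := by rw [← e1]; group) with hβ
  obtain ⟨hh, hhA, hhB⟩ := h.univ (GG (A := A) ρ ⋊[α] A) SemidirectProduct.inr β (by
    intro c hc
    show SemidirectProduct.inr (⟨c, h.le_left hc⟩ : A) =
      SemidirectProduct.inl (off ρ v0 ⟨_, hB0 ⟨c, h.le_right hc⟩⟩) *
        SemidirectProduct.inr (⟨ρ ⟨c, h.le_right hc⟩, h.le_left (ρ ⟨c, h.le_right hc⟩).2⟩ : A)
    have e1 : (⟨_, hB0 ⟨c, h.le_right hc⟩⟩ : AV ρ v0) = 1 := by
      ext
      show c * ((ρ ⟨c, h.le_right hc⟩ : K) : G)⁻¹ = 1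
      rw [hρ c hc, mul_inv_cancel]
    have e2 : (⟨ρ ⟨c, h.le_right hc⟩, h.le_left (ρ ⟨c, h.le_right hc⟩).2⟩ : A) =
        ⟨c, h.le_left hc⟩ := by
      ext
      show ((ρ ⟨c, h.le_right hc⟩ : K) : G) = c
      rw [hρ c hc]
    rw [e1, e2, map_one, map_one, one_mul])
  have hhR : ∀ (x : G) (hx : x ∈ AV ρ v0), hh x = SemidirectProduct.inl (off ρ v0 ⟨x, hx⟩) := by
    intro x hx
    have hx' := hx
    rw [hAV0, mem_RR] at hx'
    obtain ⟨hxB, hx1⟩ := hx'
    have e1 := hhB ⟨x, hxB⟩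
    have e2 : hh x = β ⟨x, hxB⟩ := e1
    rw [e2]
    show SemidirectProduct.inl (off ρ v0 ⟨_, hB0 ⟨x, hxB⟩⟩) *
        SemidirectProduct.inr (⟨ρ ⟨x, hxB⟩, h.le_left (ρ ⟨x, hxB⟩).2⟩ : A) = _
    have e3 : (⟨ρ ⟨x, hxB⟩, h.le_left (ρ ⟨x, hxB⟩).2⟩ : A) = 1 := by
      ext
      show ((ρ ⟨x, hxB⟩ : K) : G) = 1
      rw [hx1]
      rfl
    have e4 : (⟨_, hB0 ⟨x, hxB⟩⟩ : AV ρ v0) = ⟨x, hx⟩ := by
      ext
      show x * ((ρ ⟨x, hxB⟩ : K) : G)⁻¹ = x
      rw [hx1]
      simp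
    rw [e3, e4, map_one, mul_one]
  have hinv : hh.comp (ff A ρ) = SemidirectProduct.inl := by
    apply hom_ext' ρ
    intro v a
    obtain ⟨c, rfl⟩ := QuotientGroup.mk_surjective v
    show hh (ff A ρ (off ρ _ a)) = _
    rw [hf]
    have h1 : (c : G)⁻¹ * a * c ∈ AV ρ v0 := by
      rw [hAV0, ← mem_AV h ρ hρ]
      exact a.2
    have h2 : (a : G) = c * ((c : G)⁻¹ * a * c) * (c : G)⁻¹ := by group
    have h3 : c • v0 = (QuotientGroup.mk c : VV A K) := by
      rw [hv0]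
      show (QuotientGroup.mk (c * 1) : VV A K) = _
      rw [mul_one]
    rw [h2, map_mul, map_mul, map_inv, hhA, hhR _ h1]
    have h4 := hα c v0 ⟨_, h1⟩ ⟨_, mem_smul h ρ hρ c _⟩ rfl
    have h5 := off_eq ρ h3 ⟨_, mem_smul h ρ hρ c (⟨_, h1⟩ : AV ρ v0)⟩ a (by
      simp only
      group)
    rw [h5] at h4
    rw [← map_inv, ← SemidirectProduct.inl_aut, h4]
  have hinj : Function.Injective (ff A ρ) := by
    intro x y hxy
    have h1 := congrFun (congrArg DFunLike.coe hinv) x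
    have h2 := congrFun (congrArg DFunLike.coe hinv) y
    have h3 : hh (ff A ρ x) = SemidirectProduct.inl x := h1
    have h4 : hh (ff A ρ y) = SemidirectProduct.inl y := h2
    rw [hxy, h4] at h3
    exact (SemidirectProduct.inl_injective h3).symm
  -- two homomorphisms which agree on `A` and `B`
  have hgen : ∀ (H : Type) [Group H] (f g : G →* H), (∀ a : A, f a = g a) →
      (∀ b : B, f b = g b) → f = g := by
    intro H _ f g h1 h2
    have h3 : A ⊔ B ≤ f.eqLocus g :=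
      sup_le (fun a ha => h1 ⟨a, ha⟩) (fun b hb => h2 ⟨b, hb⟩)
    rw [h.gen] at h3
    ext x
    exact h3 (Subgroup.mem_top x)
  have hkh : kk.comp hh = MonoidHom.id G := by
    refine hgen G _ _ (fun a => ?_) (fun b => ?_)
    · show kk (hh a) = a
      rw [hhA, hkk, SemidirectProduct.lift_inr]
      rfl
    · show kk (hh b) = b
      rw [hhB]
      show kk (SemidirectProduct.inl (off ρ v0 ⟨_, hB0 b⟩) *
        SemidirectProduct.inr (⟨ρ b, h.le_left (ρ b).2⟩ : A)) = b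
      rw [map_mul, hkk, SemidirectProduct.lift_inl, SemidirectProduct.lift_inr, hf]
      show (b : G) * ((ρ b : K) : G)⁻¹ * ((ρ b : K) : G) = b
      group
  have hrr : SemidirectProduct.rightHom.comp hh = r := by
    refine hgen A _ _ (fun a => ?_) (fun b => ?_)
    · show SemidirectProduct.rightHom (hh a) = r a
      rw [hhA, SemidirectProduct.rightHom_inr, hrA]
      rfl
    · show SemidirectProduct.rightHom (hh b) = r b
      rw [hhB, hrB]
      show SemidirectProduct.rightHom (SemidirectProduct.inl (off ρ v0 ⟨_, hB0 b⟩) *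
        SemidirectProduct.inr (⟨ρ b, h.le_left (ρ b).2⟩ : A)) = _
      rw [map_mul, SemidirectProduct.rightHom_inl, SemidirectProduct.rightHom_inr, one_mul]
      rfl
  refine ⟨ff A ρ, fun v a => hf v a, hinj, le_antisymm ?_ ?_⟩
  · rintro _ ⟨x, rfl⟩
    have h1 : hh (ff A ρ x) = SemidirectProduct.inl x := congrFun (congrArg DFunLike.coe hinv) x
    rw [MonoidHom.mem_ker, ← hrr, MonoidHom.comp_apply, h1, SemidirectProduct.rightHom_inl]
  · intro g hg
    rw [MonoidHom.mem_ker, ← hrr, MonoidHom.comp_apply] at hg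
    have h1 : hh g ∈ (SemidirectProduct.inl : GG (A := A) ρ →* GG (A := A) ρ ⋊[α] A).range := by
      rw [SemidirectProduct.range_inl_eq_ker_rightHom]
      exact hg
    obtain ⟨x, hx⟩ := h1
    refine ⟨x, ?_⟩
    have h2 : kk (hh g) = g := congrFun (congrArg DFunLike.coe hkh) g
    rw [← hx, hkk, SemidirectProduct.lift_inl] at h2
    exact h2

end

/-- `C` is invariant under isomorphisms of subgroups given by conjugation -/
lemma conj_C {C : ∀ (G : Type) [Group G], Prop} (hC : ClosedE C) {G : Type} [Group G] (c : G)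
    (H : Subgroup G) (h : C H) : C ↥(H.map (MulAut.conj c).toMonoidHom) := by
  have e := H.equivMapOfInjective (MulAut.conj c).toMonoidHom (MulAut.conj c).injective
  exact hC.base.of_injective _ _ e.symm.toMonoidHom e.symm.injective h

/-- **amalgamated products over a retract of one factor** -/
theorem t_ret : S_RET := by
  intro C hC G _ A B K h ρ hρ
  obtain ⟨r, hrA, hgp⟩ := gp_ex h ρ hρ
  have h1 : r.ker ⊔ A = ⊤ := by
    rw [eq_top_iff]
    intro g _
    have h2 : g = (g * ((r g : A) : G)⁻¹) * ((r g : A) : G) := by group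
    rw [h2]
    refine Subgroup.mul_mem_sup ?_ (r g).2
    rw [MonoidHom.mem_ker, map_mul, map_inv, hrA, mul_inv_cancel]
  have h2 : r.ker ⊓ A = ⊥ := by
    rw [eq_bot_iff]
    rintro x ⟨hx1, hx2⟩
    rw [Subgroup.mem_bot]
    have h3 : r x = 1 := hx1
    have h4 := hrA ⟨x, hx2⟩
    have h5 : (⟨x, hx2⟩ : A) = 1 := by
      rw [← h4]
      exact h3
    exact congrArg Subtype.val h5
  have key := (tgp_iff C hC G (VV A K) r.ker A ⊥ (AV ρ) hgp h1 (fun q v w hvw => by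
    simp at hvw) (fun q v => AV_smul h ρ hρ q v)).2 h2
  rw [key]
  refine and_congr_right fun _ => ⟨fun hall a ha => ?_, fun hall v q hq => ?_⟩
  · have h3 := hall (QuotientGroup.mk (1 : A)) ⟨a, h.le_left ha⟩ (by
      rw [fix_iff]
      simpa using ha)
    rw [AV_one h ρ hρ] at h3
    exact h3
  · obtain ⟨c, rfl⟩ := QuotientGroup.mk_surjective v
    rw [fix_iff] at hq
    have h3 := conj_C hC (c : G) _ (hall _ hq)
    have h4 : ((RR ρ) ⊔ Subgroup.zpowers ((c : G)⁻¹ * q * c)).map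
        (MulAut.conj (c : G)).toMonoidHom =
        AV ρ (QuotientGroup.mk c : VV A K) ⊔ Subgroup.zpowers (q : G) := by
      rw [Subgroup.map_sup, AV_eq h ρ hρ, MonoidHom.map_zpowers]
      congr 2
      simp only [MulEquiv.toMonoidHom_eq_coe, MonoidHom.coe_coe, MulAut.conj_apply]
      group
    rw [← h4]
    exact h3

end Pool.Agent.Y620.FJ
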